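import Pool.Agent.H81.LT.Base

/-!
# Case R with `m = 3` and `N < 3 H + D`: interface to the checker
-/

namespace Pool.Agent.H42.SL

open Pool.Agent.H78.RT
open Pool.Agent.H78.Tie
open Pool.Agent.H78.Tie.TAp
open Pool.Agent.H78.SV
open Pool.Agent.H81.AP (LF dot dot_nil dot_nil' dot_cons AllNn AllNe)

variable {A : TAp} {T : A.Tie} {sx n g k U S a V R b Y Q c : ℤ}

/-- two classes -/
def JG : List LR := [⟨[0, 0, 0, 0, 0, 0, 0, 0, 0, 0, 1], [0, 0, 0, 0, 0, 0, 0, 0, 0, 1],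
  [0, 0, 0, 0, 0, 0, 0, 0, 1]⟩, ⟨[0, 0, 0, 0, 0, 0, 0, 0, 0, 0, 0, 0, 0, 1],
  [0, 0, 0, 0, 0, 0, 0, 0, 0, 0, 0, 0, 1], [0, 0, 0, 0, 0, 0, 0, 0, 0, 0, 0, 1]⟩]

/-- three classes -/
def JH : List LR := [⟨[0, 0, 0, 0, 0, 0, 0, 0, 0, 0, 1], [0, 0, 0, 0, 0, 0, 0, 0, 0, 1],
  [0, 0, 0, 0, 0, 0, 0, 0, 1]⟩, ⟨[0, 0, 0, 0, 0, 0, 0, 0, 0, 0, 0, 0, 0, 1],
  [0, 0, 0, 0, 0, 0, 0, 0, 0, 0, 0, 0, 1], [0, 0, 0, 0, 0, 0, 0, 0, 0, 0, 0, 1]⟩,
  ⟨[0, 0, 0, 0, 0, 0, 0, 0, 0, 0, 0, 0, 0, 0, 0, 0, 1],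
  [0, 0, 0, 0, 0, 0, 0, 0, 0, 0, 0, 0, 0, 0, 0, 1],
  [0, 0, 0, 0, 0, 0, 0, 0, 0, 0, 0, 0, 0, 0, 1]⟩]

/-- residues of the environment, two classes -/
def resG (es D a b : ℤ) : List ℤ := [1, 0, 0, 0, D, 0, es, 0, a, 0, a, b, 0, b]

/-- residues of the environment, three classes -/
def resH (es D a b c : ℤ) : List ℤ := [1, 0, 0, 0, D, 0, es, 0, a, 0, a, b, 0, b, c, 0, c]

theorem goG (d : ST A T sx) {sp ep : Bool} (hsg : A.sg = sgv sp) (hep : T.ep = sgv ep)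
    (cn : IsC A n U S a) (cg : IsC A g V R b) {ga la : List LF}
    (hg : AllNn (env A T [a, S, U, b, R, V]) ga)
    (hla : ∀ F ∈ la, dot F (resG (sgv ep * sgv sp) A.D a b) = 0)
    {t : Pool.Agent.H78.RT.T} (h : (mkS sp ep sx JG ga [] la).chk t = true) : False := by
  refine d.run hsg hep (J := JG) (g := ga) (ne := []) (la := la) (r := [a, S, U, b, R, V]) ?_ hg
    trivial ?_ h
  · refine ⟨⟨n, ?_⟩, ⟨g, ?_⟩, trivial⟩
    · unfold LR.Cl env
      simp only [dot_cons, dot_nil]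
      convert cn using 1 <;> ring
    · unfold LR.Cl env
      simp only [dot_cons, dot_nil]
      convert cg using 1 <;> ring
  · intro F hF
    have h1 := d.q_th
    rw [hsg, hep] at h1
    obtain ⟨s, hs, -⟩ := cn.1.2.1
    obtain ⟨s', hs', -⟩ := cg.1.2.1
    have h2 : List.Forall₂ (fun a b => (A.q : ℤ) ∣ a - b) (1 :: env A T [a, S, U, b, R, V])
        (resG (sgv ep * sgv sp) A.D a b) := by
      unfold env resG
      refine .cons (by simp) (.cons (by rw [sub_zero]; exact dvd_mul_left _ _)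
        (.cons (by simp) (.cons (by simp) (.cons (by simp) (.cons (by simp) (.cons h1
        (.cons (by simp) (.cons (by simp) (.cons ⟨s, by rw [hs]; ring⟩ (.cons cn.1.mod
        (.cons (by simp) (.cons ⟨s', by rw [hs']; ring⟩ (.cons cg.1.mod .nil)))))))))))))
    have := Pool.Agent.H81.LT.dot_dvd (F := F) h2
    rwa [hla F hF, sub_zero] at this

theorem goH (d : ST A T sx) {sp ep : Bool} (hsg : A.sg = sgv sp) (hep : T.ep = sgv ep)
    (cn : IsC A n U S a) (cg : IsC A g V R b) (ck : IsC A k Y Q c) {ga la : List LF}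
    (hg : AllNn (env A T [a, S, U, b, R, V, c, Q, Y]) ga)
    (hla : ∀ F ∈ la, dot F (resH (sgv ep * sgv sp) A.D a b c) = 0)
    {t : Pool.Agent.H78.RT.T} (h : (mkS sp ep sx JH ga [] la).chk t = true) : False := by
  refine d.run hsg hep (J := JH) (g := ga) (ne := []) (la := la)
    (r := [a, S, U, b, R, V, c, Q, Y]) ?_ hg trivial ?_ h
  · refine ⟨⟨n, ?_⟩, ⟨g, ?_⟩, ⟨k, ?_⟩, trivial⟩
    · unfold LR.Cl env
      simp only [dot_cons, dot_nil]
      convert cn using 1 <;> ring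
    · unfold LR.Cl env
      simp only [dot_cons, dot_nil]
      convert cg using 1 <;> ring
    · unfold LR.Cl env
      simp only [dot_cons, dot_nil]
      convert ck using 1 <;> ring
  · intro F hF
    have h1 := d.q_th
    rw [hsg, hep] at h1
    obtain ⟨s, hs, -⟩ := cn.1.2.1
    obtain ⟨s', hs', -⟩ := cg.1.2.1
    obtain ⟨s'', hs'', -⟩ := ck.1.2.1
    have h2 : List.Forall₂ (fun a b => (A.q : ℤ) ∣ a - b)
        (1 :: env A T [a, S, U, b, R, V, c, Q, Y]) (resH (sgv ep * sgv sp) A.D a b c) := by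
      unfold env resH
      refine .cons (by simp) (.cons (by rw [sub_zero]; exact dvd_mul_left _ _)
        (.cons (by simp) (.cons (by simp) (.cons (by simp) (.cons (by simp) (.cons h1
        (.cons (by simp) (.cons (by simp) (.cons ⟨s, by rw [hs]; ring⟩ (.cons cn.1.mod
        (.cons (by simp) (.cons ⟨s', by rw [hs']; ring⟩ (.cons cg.1.mod
        (.cons (by simp) (.cons ⟨s'', by rw [hs'']; ring⟩ (.cons ck.1.mod
        .nil))))))))))))))))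
    have := Pool.Agent.H81.LT.dot_dvd (F := F) h2
    rwa [hla F hF, sub_zero] at this

/-- inequalities on the two classes `n` and `g`, `t = 3 g`; `z` is the multiple of `N` in the
row of `g` -/
structure Pr (A : TAp) (T : A.Tie) (sx z n g U S a V R b : ℤ) : Prop where
  cn : IsC A n U S a
  cg : IsC A g V R b
  a1 : a + 1 ≤ A.D
  u0 : -(A.q * A.w : ℤ) + 2 ≤ U
  u1 : U + 2 ≤ A.q * A.w
  v0 : -(A.q * A.h : ℤ) + 2 ≤ U + S
  v1 : U + S + 2 ≤ A.q * A.h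
  d0 : A.q * (A.w : ℤ) ≤ A.D
  hx : A.q * (A.w : ℤ) + sx * (A.q * T.x) ≤ A.q * A.h
  e1 : 3 * V = T.ep * (A.q * A.w + A.sg)
  e2 : 3 * b = th A T.t
  e3 : 3 * R + z * NN A = T.ep * (A.q * T.x - A.q * A.w)
  e4 : A.q * (A.w : ℤ) ≤ T.ep * (V - U)
  e5 : A.D + 1 ≤ a + b
  e6 : A.q * (A.w : ℤ) = 2 * A.q
  e7 : 3 * (A.q * A.h : ℤ) + sx * (A.q * T.x) ≤ NN A
  e8 : NN A + 1 ≤ 3 * (A.q * A.h : ℤ) + A.D
  e9 : A.D + 1 ≤ 2 * th A T.t

end Pool.Agent.H42.SL
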